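import Pool.Agent.Helper65.JL.Stmts

set_option autoImplicit false

open Set Filter Topology Pool.Agent.Helper86.TK

namespace Pool.Agent.Helper65.JL

theorem st_SEG : ST_SEG := by
  intro N
  have hfin : (seg '' {n : ℕ | n ≤ N}).Finite := (Set.finite_le_nat N).image seg
  refine ⟨hfin.isCompact, ?_, ?_⟩
  · rintro c ⟨n, -, rfl⟩
    have hs : {t : T | ∃ j ≤ n, t = nd (fun _ => true) j}.Finite := by
      refine ((Set.finite_le_nat n).image (fun j => nd (fun _ => true) j)).subset ?_
      rintro t ⟨j, hj, rfl⟩
      exact ⟨j, hj, rfl⟩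
    refine tendsto_const_nhds.congr' ?_
    filter_upwards [hs.compl_mem_cofinite] with t ht
    exact (Set.indicator_of_notMem ht _).symm
  · rintro c ⟨n, -, rfl⟩ t
    by_cases ht : t ∈ {t : T | ∃ j ≤ n, t = nd (fun _ => true) j}
    · right
      exact Set.indicator_of_mem ht _
    · left
      exact Set.indicator_of_notMem ht _

end Pool.Agent.Helper65.JL
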